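import Pool.Agent.X49.StarCount

/-!
# MP_5484c7, Q1: infinitely many `K_{1,n}`-irregular graphs

Take the vertices `0, 1, ..., 2 h + 1`, join distinct `i` and `j` when `i + j > 2 h + 1`, and add
the edge between `0` and `h + 1`. For `2 ≤ n < h` the number of copies of `K_{1,n}` through the
vertex `i` is strictly increasing in `i`.
-/

namespace Pool.Agent.Results.MP_5484c7_co.StarIrregular

open SimpleGraph Pool.Agent.X49

/-- The `F`-degree of `x` in `G`: the number of subgraphs of `G` that are isomorphic to `F` and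
contain `x`. -/
noncomputable def fDegree {U V : Type} (F : SimpleGraph U) (G : SimpleGraph V) (x : V) : ℕ :=
  {S : G.Subgraph | Nonempty (F ≃g S.coe) ∧ x ∈ S.verts}.ncard

/-- `G` is `F`-irregular: its vertices have pairwise distinct `F`-degrees. -/
def Irregular {U V : Type} (F : SimpleGraph U) (G : SimpleGraph V) : Prop :=
  Function.Injective (fDegree F G)

/-- The adjacency of the graph, on the natural numbers. -/
def adj (h i j : ℕ) : Prop :=
  i ≠ j ∧ (2 * h + 1 < i + j ∨ (i = 0 ∧ j = h + 1) ∨ (i = h + 1 ∧ j = 0))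

instance (h i j : ℕ) : Decidable (adj h i j) := inferInstanceAs (Decidable (_ ∧ _))

/-- The antiregular graph with a pendant vertex. -/
def gr (h : ℕ) : SimpleGraph (Fin (2 * h + 2)) where
  Adj i j := adj h i j
  symm := ⟨by
    rintro i j ⟨h1, h2⟩
    exact ⟨h1.symm, by omega⟩⟩
  loopless := ⟨fun i h => h.1 rfl⟩

instance (h : ℕ) : DecidableRel (gr h).Adj := fun i j => inferInstanceAs (Decidable (adj h i j))

/-- The degrees. -/
def dg (h i : ℕ) : ℕ := if i = 0 then 1 else if i ≤ h + 1 then i else i - 1

/-- The sum over all `j` with `i + j > 2 h + 1`. -/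
def A (h : ℕ) (W : ℕ → ℕ) (i : ℕ) : ℕ :=
  ∑ j ∈ Finset.range (2 * h + 2), if 2 * h + 1 < i + j then W j else 0

theorem A_zero (h : ℕ) (W : ℕ → ℕ) : A h W 0 = 0 := by
  unfold A
  apply Finset.sum_eq_zero
  intro j hj
  rw [Finset.mem_range] at hj
  rw [if_neg (by omega)]

theorem A_succ (h : ℕ) (W : ℕ → ℕ) (i : ℕ) (hi : i ≤ 2 * h + 1) :
    A h W (i + 1) = A h W i + W (2 * h + 1 - i) := by
  unfold A
  rw [← Finset.add_sum_erase _ _ (Finset.mem_range.mpr (by omega : 2 * h + 1 - i < 2 * h + 2)),
    ← Finset.add_sum_erase _ _ (Finset.mem_range.mpr (by omega : 2 * h + 1 - i < 2 * h + 2)),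
    if_pos (by omega), if_neg (by omega)]
  rw [zero_add, add_comm]
  congr 1
  apply Finset.sum_congr rfl
  intro j hj
  rw [Finset.mem_erase, Finset.mem_range] at hj
  by_cases h1 : 2 * h + 1 < i + j
  · rw [if_pos h1, if_pos (by omega)]
  · rw [if_neg h1, if_neg (by omega)]

/-- The sum over all neighbours. -/
theorem sum_nbr (h : ℕ) (W : ℕ → ℕ) (i : Fin (2 * h + 2)) :
    ∑ j ∈ (gr h).neighborFinset i, W j + (if h + 1 ≤ i.val then W i else 0) =
      A h W i + (if i.val = 0 then W (h + 1) else 0) + (if i.val = h + 1 then W 0 else 0) := by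
  have h1 : ∑ j ∈ (gr h).neighborFinset i, W j =
      ∑ j ∈ Finset.range (2 * h + 2), if adj h i j then W j else 0 := by
    rw [← Fin.sum_univ_eq_sum_range (fun j => if adj h i j then W j else 0)]
    rw [← Finset.sum_filter]
    apply Finset.sum_congr _ fun _ _ => rfl
    ext j
    rw [mem_neighborFinset]
    simp only [Finset.mem_filter, Finset.mem_univ, true_and]
    exact Iff.rfl
  rw [h1]
  have hi := i.isLt
  have e1 : (if h + 1 ≤ i.val then W i else 0) =
      ∑ j ∈ Finset.range (2 * h + 2), if j = i.val then (if h + 1 ≤ i.val then W i else 0) else 0 := by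
    rw [Finset.sum_ite_eq' (Finset.range (2 * h + 2)) i.val]
    rw [if_pos (Finset.mem_range.mpr hi)]
  have e2 : (if i.val = 0 then W (h + 1) else 0) =
      ∑ j ∈ Finset.range (2 * h + 2), if j = h + 1 then (if i.val = 0 then W (h + 1) else 0) else 0 := by
    rw [Finset.sum_ite_eq' (Finset.range (2 * h + 2)) (h + 1)]
    rw [if_pos (Finset.mem_range.mpr (by omega))]
  have e3 : (if i.val = h + 1 then W 0 else 0) =
      ∑ j ∈ Finset.range (2 * h + 2), if j = 0 then (if i.val = h + 1 then W 0 else 0) else 0 := by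
    rw [Finset.sum_ite_eq' (Finset.range (2 * h + 2)) 0]
    rw [if_pos (Finset.mem_range.mpr (by omega))]
  rw [e1, e2, e3]
  unfold A
  rw [← Finset.sum_add_distrib, ← Finset.sum_add_distrib, ← Finset.sum_add_distrib]
  apply Finset.sum_congr rfl
  intro j hj
  rw [Finset.mem_range] at hj
  unfold adj
  by_cases c1 : j = i.val
  · subst c1
    by_cases c2 : h + 1 ≤ i.val
    · have : ¬ (i.val = 0) := by omega
      have c3 : 2 * h + 1 < i.val + i.val := by omega
      simp [c2, this, c3]
    · have c3 : ¬ (2 * h + 1 < i.val + i.val) := by omega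
      have c4 : ¬ (i.val = h + 1) := by omega
      simp [c2, c3, c4]
  · by_cases c2 : 2 * h + 1 < i.val + j
    · have c3 : ¬ (j = h + 1 ∧ i.val = 0) := by omega
      have c4 : ¬ (j = 0 ∧ i.val = h + 1) := by omega
      by_cases c5 : j = h + 1
      · have c6 : i.val ≠ 0 := by omega
        have c7 : j ≠ 0 := by omega
        simp [c2, c6, c7, Ne.symm c1, c1]
      · by_cases c7 : j = 0
        · have c8 : i.val ≠ h + 1 := by omega
          simp [c2, c8, c5, Ne.symm c1, c1]
        · simp [c2, c5, c7, Ne.symm c1, c1]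
    · by_cases c5 : j = h + 1
      · have c7 : j ≠ 0 := by omega
        by_cases c6 : i.val = 0
        · subst c5; simp [c6]
          intro h9; omega
        · subst c5
          simp [c2, c6, Ne.symm c1, c1]
      · by_cases c7 : j = 0
        · subst c7
          by_cases c8 : i.val = h + 1
          · simp [c8]
            intro h9; omega
          · simp [c8, Ne.symm c1, c1]
        · simp [c2, c5, c7, Ne.symm c1, c1]

theorem degree_eq (h : ℕ) (i : Fin (2 * h + 2)) : (gr h).degree i = dg h i := by
  have h1 := sum_nbr h (fun _ => 1) i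
  rw [Finset.sum_const, smul_eq_mul, mul_one, card_neighborFinset_eq_degree] at h1
  have h2 : ∀ k, k ≤ 2 * h + 2 → A h (fun _ => 1) k = k := by
    intro k
    induction k with
    | zero => intro _; exact A_zero _ _
    | succ k ih =>
      intro hk
      rw [A_succ _ _ _ (by omega), ih (by omega)]
  rw [h2 _ i.isLt.le] at h1
  unfold dg
  split_ifs at h1 ⊢ <;> omega

/-- The numbers of copies of `K_{1,n}` are strictly increasing. -/
theorem strictMono (n h : ℕ) (hn : 2 ≤ n) (hh : n < h) :
    StrictMono (fDegree (Star n) (gr h)) := by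
  obtain ⟨W, hW⟩ : ∃ W : ℕ → ℕ, W = fun j => (dg h j - 1).choose (n - 1) := ⟨_, rfl⟩
  -- the value of the degree
  have hf : ∀ i : Fin (2 * h + 2), fDegree (Star n) (gr h) i + (if h + 1 ≤ i.val then W i else 0) =
      (dg h i).choose n + A h W i + (if i.val = 0 then W (h + 1) else 0) := by
    intro i
    unfold fDegree
    rw [starDegree n hn i, degree_eq]
    have h1 := sum_nbr h W i
    have h2 : W 0 = 0 := by
      rw [hW]
      simp only [dg, if_true]
      exact Nat.choose_eq_zero_of_lt (by omega)
    rw [h2] at h1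
    have h3 : ∑ y ∈ (gr h).neighborFinset i, ((gr h).degree y - 1).choose (n - 1) =
        ∑ y ∈ (gr h).neighborFinset i, W y := by
      rw [hW]
      apply Finset.sum_congr rfl
      intro y _
      rw [degree_eq]
    rw [h3]
    simp only [ite_self, add_zero] at h1
    omega
  -- the weights
  have w1 : ∀ j, 1 ≤ j → j ≤ h + 1 → W j = (j - 1).choose (n - 1) := by
    intro j h1 h2
    rw [hW]
    simp only [dg]
    rw [if_neg (by omega), if_pos h2]
  have w2 : ∀ j, h + 2 ≤ j → W j = (j - 2).choose (n - 1) := by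
    intro j h1
    rw [hW]
    simp only [dg]
    rw [if_neg (by omega), if_neg (by omega)]
    congr 1
  have pascal : ∀ m, 1 ≤ m → m.choose n = (m - 1).choose (n - 1) + (m - 1).choose n := by
    intro m hm
    obtain ⟨m', rfl⟩ : ∃ m', m = m' + 1 := ⟨m - 1, by omega⟩
    obtain ⟨k, rfl⟩ : ∃ k, n = k + 1 := ⟨n - 1, by omega⟩
    simp [Nat.choose_succ_succ]
  have hpos : ∀ m, n - 1 ≤ m → 0 < m.choose (n - 1) := fun m hm => Nat.choose_pos hm
  apply Fin.strictMono_iff_lt_succ.mpr
  intro i
  obtain ⟨i, hi⟩ := i
  have f1 := hf (Fin.castSucc ⟨i, hi⟩)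
  have f2 := hf (Fin.succ ⟨i, hi⟩)
  simp only [Fin.val_castSucc, Fin.val_succ] at f1 f2
  have hA := A_succ h W i (by omega)
  rw [hA] at f2
  rw [if_neg (show ¬ (i + 1 = 0) by omega)] at f2
  rcases Nat.eq_zero_or_pos i with h0 | h0
  · -- the pendant vertex
    subst h0
    rw [if_neg (by omega), if_pos rfl, A_zero] at f1
    rw [if_neg (by omega), A_zero] at f2
    simp only [dg, if_true] at f1 f2
    rw [if_neg (by omega), if_pos (by omega)] at f2
    simp only [zero_add] at f2
    have e1 : W (2 * h + 1 - 0) = (2 * h - 1).choose (n - 1) := by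
      rw [w2 _ (by omega)]; congr 1
    have e2 : W (h + 1) = h.choose (n - 1) := by
      rw [w1 _ (by omega) (by omega)]; congr 1
    have e3 : (h + 1).choose (n - 1) ≤ (2 * h - 1).choose (n - 1) :=
      Nat.choose_le_choose _ (by omega)
    have e4 : h.choose (n - 1) < (h + 1).choose (n - 1) := by
      obtain ⟨k, hk⟩ : ∃ k, n - 1 = k + 1 := ⟨n - 2, by omega⟩
      rw [hk, Nat.choose_succ_succ']
      have : 0 < h.choose k := Nat.choose_pos (by omega)
      omega
    omega
  rw [if_neg (show ¬ (i = 0) by omega)] at f1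
  rcases Nat.lt_or_ge i h with h1 | h1
  · -- the low vertices
    rw [if_neg (by omega)] at f1 f2
    have e1 : dg h i = i := by unfold dg; rw [if_neg (by omega), if_pos (by omega)]
    have e2 : dg h (i + 1) = i + 1 := by unfold dg; rw [if_neg (by omega), if_pos (by omega)]
    rw [e1] at f1
    rw [e2] at f2
    have e3 : 0 < W (2 * h + 1 - i) := by
      rw [w2 _ (by omega)]
      exact hpos _ (by omega)
    have e4 := pascal (i + 1) (by omega)
    simp only [Nat.add_sub_cancel] at e4
    omega
  rcases Nat.eq_or_lt_of_le h1 with h2 | h2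
  · -- from `h` to `h + 1`
    subst h2
    rw [if_neg (by omega)] at f1
    rw [if_pos (by omega)] at f2
    have e1 : dg h h = h := by unfold dg; rw [if_neg (by omega), if_pos (by omega)]
    have e2 : dg h (h + 1) = h + 1 := by unfold dg; rw [if_neg (by omega), if_pos (by omega)]
    rw [e1] at f1
    rw [e2, show 2 * h + 1 - h = h + 1 by omega] at f2
    have e4 := pascal (h + 1) (by omega)
    simp only [Nat.add_sub_cancel] at e4
    have e5 := hpos h (by omega)
    omega
  rcases Nat.eq_or_lt_of_le (show h + 1 ≤ i from h2) with h3 | h3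
  · -- from `h + 1` to `h + 2`
    subst h3
    rw [if_pos (by omega)] at f1 f2
    have e1 : dg h (h + 1) = h + 1 := by unfold dg; rw [if_neg (by omega), if_pos (by omega)]
    have e2 : dg h (h + 1 + 1) = h + 1 := by
      unfold dg; rw [if_neg (by omega), if_neg (by omega)]; omega
    rw [e1] at f1
    rw [e2, show 2 * h + 1 - (h + 1) = h by omega] at f2
    have e3 : W (h + 1) = h.choose (n - 1) := by
      rw [w1 _ (by omega) (by omega)]; congr 1
    have e4 : W (h + 1 + 1) = h.choose (n - 1) := by
      rw [w2 _ (by omega)]; congr 1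
    have e5 : 0 < W h := by
      rw [w1 _ (by omega) (by omega)]
      exact hpos _ (by omega)
    omega
  · -- the high vertices
    rw [if_pos (by omega)] at f1 f2
    have e1 : dg h i = i - 1 := by unfold dg; rw [if_neg (by omega), if_neg (by omega)]
    have e2 : dg h (i + 1) = i := by
      unfold dg; rw [if_neg (by omega), if_neg (by omega)]; omega
    rw [e1] at f1
    rw [e2] at f2
    have e3 : W i = (i - 2).choose (n - 1) := w2 _ (by omega)
    have e4 : W (i + 1) = (i - 1).choose (n - 1) := by
      rw [w2 _ (by omega)]; congr 1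
    have e5 := pascal i (by omega)
    have e6 := hpos (i - 2) (by omega)
    omega

/-- **Positive answer to Q1.** For every `n ≥ 2` and every `h > n` there is a `K_{1,n}`-irregular
graph on `2 h + 2` vertices; in particular there are infinitely many `K_{1,n}`-irregular graphs up
to isomorphism, as their orders are unbounded. -/
theorem result :
    (∀ n h : ℕ, 2 ≤ n → n < h → ∃ G : SimpleGraph (Fin (2 * h + 2)),
      Irregular (completeBipartiteGraph Unit (Fin n)) G) ∧
    ∀ n : ℕ, 2 ≤ n → {N : ℕ | ∃ G : SimpleGraph (Fin N),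
      Irregular (completeBipartiteGraph Unit (Fin n)) G}.Infinite := by
  have h1 : ∀ n h : ℕ, 2 ≤ n → n < h → ∃ G : SimpleGraph (Fin (2 * h + 2)),
      Irregular (completeBipartiteGraph Unit (Fin n)) G :=
    fun n h hn hh => ⟨gr h, (strictMono n h hn hh).injective⟩
  refine ⟨h1, fun n hn => ?_⟩
  rw [Set.infinite_iff_exists_gt]
  intro a
  exact ⟨2 * (a + n + 1) + 2, h1 n (a + n + 1) hn (by omega), by omega⟩

end Pool.Agent.Results.MP_5484c7_co.StarIrregular
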